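import Mathlib

/-!
# Minimum degree at least `k` is infinity-elusive for every `k ≥ 3`

Hider's strategy.  When Seeker queries the pair `{u, v}` with `u < v` at turn `n`, let `g w` be the
number of green pairs at `w` so far and let `b w` be the number of vertices `x < w` for which the
pair `{x, w}` is still white.  Hider answers green if and only if

* `g u + b u < k` (the smaller vertex is in danger), and
* `g v + 2 ≤ k`, or `b v = 1` (`u` is the last vertex below `v` with a white pair to `v`).

The first clause of the second condition keeps every vertex with a white pair to a smaller vertex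
at green degree at most `k - 1`.  So if a white pair remains, then the green graph is not in `D k`.
On the other hand a double counting shows that every vertex has, at the end, green plus white
degree at least `k`, as soon as `k ≥ 3`.
-/

namespace Pool.Agent.Results.MP_3b52ff_co.MinDegreeElusive

open Finset

/-! ## The game -/

/-- An unordered pair `{a, b}` of distinct natural numbers, written as `(a, b)` with `a < b`. -/
abbrev Pair : Type := {p : ℕ × ℕ // p.1 < p.2}

/-- A strategy of Seeker: given the finite sequence of Hider's answers so far (`true` is green,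
`false` is red), it names the next pair. -/
abbrev SeekerStrategy : Type := (n : ℕ) → (Fin n → Bool) → Pair

/-- The pair that Seeker queries at turn `n` when he follows `σ` and Hider's answers are `h`. -/
def query (σ : SeekerStrategy) (h : ℕ → Bool) (n : ℕ) : Pair := σ n (fun i : Fin n => h i)

/-- The graph of all pairs coloured green in the run with queries `q` and answers `h`. -/
def green (q : ℕ → Pair) (h : ℕ → Bool) : SimpleGraph ℕ :=
  SimpleGraph.fromRel (fun a b => ∃ n, h n = true ∧ (q n).1 = (a, b))

/-- The graph of all pairs that are still white after all turns `n = 0, 1, 2, …`. -/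
def white (q : ℕ → Pair) : SimpleGraph ℕ :=
  SimpleGraph.fromRel (fun a b => a < b ∧ ∀ n, (q n).1 ≠ (a, b))

/-- `P_∞`: the graphs that contain all green pairs and consist of green and white pairs. -/
def completions (q : ℕ → Pair) (h : ℕ → Bool) : Set (SimpleGraph ℕ) :=
  {H | green q h ≤ H ∧ H ≤ green q h ⊔ white q}

/-- Seeker wins the run: a white pair remains, and `P_∞ ⊆ S` or `P_∞ ∩ S = ∅`. -/
def SeekerWins (S : Set (SimpleGraph ℕ)) (q : ℕ → Pair) (h : ℕ → Bool) : Prop :=
  white q ≠ ⊥ ∧ (completions q h ⊆ S ∨ completions q h ∩ S = ∅)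

/-- `σ` is a winning strategy of Seeker: against all answers of Hider it only queries pairs that
are still white (no pair is queried twice) and Seeker wins the run. -/
def IsWinning (S : Set (SimpleGraph ℕ)) (σ : SeekerStrategy) : Prop :=
  ∀ h : ℕ → Bool, Function.Injective (query σ h) ∧ SeekerWins S (query σ h) h

/-- `S` is infinity-elusive: Seeker has no winning strategy. -/
def InfElusive (S : Set (SimpleGraph ℕ)) : Prop := ¬ ∃ σ : SeekerStrategy, IsWinning S σ

/-- `D k`: every vertex has degree at least `k`. -/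
def D (k : ℕ) : Set (SimpleGraph ℕ) := {H | ∀ v, (k : ℕ∞) ≤ (H.neighborSet v).encard}

/-! ## Counting functions and Hider's rule -/

/-- Number of green pairs at `w` before turn `n`. -/
def g (e : ℕ → ℕ × ℕ) (h : ℕ → Bool) (n w : ℕ) : ℕ :=
  ((range n).filter (fun i => h i = true ∧ ((e i).1 = w ∨ (e i).2 = w))).card

/-- Number of `x < w` such that `{x, w}` is white before turn `n`. -/
def b (e : ℕ → ℕ × ℕ) (n w : ℕ) : ℕ :=
  ((range w).filter (fun x => ∀ i < n, e i ≠ (x, w))).card

/-- Hider's rule. -/
def rule (k : ℕ) (e : ℕ → ℕ × ℕ) (h : ℕ → Bool) (n : ℕ) : Prop :=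
  g e h n (e n).1 + b e n (e n).1 < k ∧ (g e h n (e n).2 + 2 ≤ k ∨ b e n (e n).2 = 1)

section Core

variable {e : ℕ → ℕ × ℕ} {h : ℕ → Bool} {k : ℕ}

lemma g_zero (w : ℕ) : g e h 0 w = 0 := by simp [g]

lemma g_succ_of (n w : ℕ) (H : h n = true ∧ ((e n).1 = w ∨ (e n).2 = w)) :
    g e h (n + 1) w = g e h n w + 1 := by
  unfold g
  rw [Finset.range_add_one, Finset.filter_insert, if_pos H, Finset.card_insert_of_notMem]
  simp

lemma g_succ_not (n w : ℕ) (H : ¬ (h n = true ∧ ((e n).1 = w ∨ (e n).2 = w))) :
    g e h (n + 1) w = g e h n w := by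
  unfold g
  rw [Finset.range_add_one, Finset.filter_insert, if_neg H]

lemma g_le_succ (n w : ℕ) : g e h n w ≤ g e h (n + 1) w := by
  by_cases H : h n = true ∧ ((e n).1 = w ∨ (e n).2 = w)
  · rw [g_succ_of n w H]; omega
  · rw [g_succ_not n w H]

lemma g_mono {n m : ℕ} (w : ℕ) (hnm : n ≤ m) : g e h n w ≤ g e h m w :=
  monotone_nat_of_le_succ (f := fun n => g e h n w) (fun n => g_le_succ n w) hnm

lemma b_succ_ne (n w : ℕ) (hw : (e n).2 ≠ w) : b e (n + 1) w = b e n w := by
  unfold b
  congr 1
  apply Finset.filter_congr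
  intro x _
  constructor
  · intro H i hi
    exact H i (by omega)
  · intro H i hi
    rcases Nat.lt_succ_iff_lt_or_eq.1 hi with hlt | heq
    · exact H i hlt
    · intro he
      apply hw
      rw [← heq, he]

lemma b_succ_eq (hinj : Function.Injective e) (hlt : ∀ n, (e n).1 < (e n).2) (n : ℕ) :
    b e (n + 1) (e n).2 + 1 = b e n (e n).2 := by
  unfold b
  have : (range (e n).2).filter (fun x => ∀ i < n, e i ≠ (x, (e n).2)) =
      insert (e n).1 ((range (e n).2).filter (fun x => ∀ i < n + 1, e i ≠ (x, (e n).2))) := by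
    ext x
    simp only [Finset.mem_filter, Finset.mem_range, Finset.mem_insert]
    constructor
    · rintro ⟨hx, H⟩
      by_cases hx' : x = (e n).1
      · exact Or.inl hx'
      · right
        refine ⟨hx, fun i hi he => ?_⟩
        rcases Nat.lt_succ_iff_lt_or_eq.1 hi with hlt | heq
        · exact H i hlt he
        · apply hx'
          rw [heq] at he
          rw [he]
    · rintro (hx | ⟨hx, H⟩)
      · subst hx
        refine ⟨hlt n, fun i hi he => ?_⟩
        have : i = n := hinj he
        omega
      · exact ⟨hx, fun i hi => H i (by omega)⟩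
  rw [this, Finset.card_insert_of_notMem]
  simp only [Finset.mem_filter, Finset.mem_range, not_and, not_forall]
  intro _
  exact ⟨n, by omega, by simp⟩

lemma one_le_b (hinj : Function.Injective e) (hlt : ∀ n, (e n).1 < (e n).2) (n : ℕ) :
    1 ≤ b e n (e n).2 := by
  have := b_succ_eq hinj hlt n
  omega

/-- A vertex with a white pair to a smaller vertex has green degree less than `k`. -/
lemma inv1 (hk : 1 ≤ k) (hinj : Function.Injective e) (hlt : ∀ n, (e n).1 < (e n).2)
    (hr : ∀ n, h n = true ↔ rule k e h n) (n w : ℕ) :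
    1 ≤ b e n w → g e h n w + 1 ≤ k := by
  induction n with
  | zero => intro _; rw [g_zero]; omega
  | succ n ih =>
    intro hb
    by_cases H : h n = true ∧ ((e n).1 = w ∨ (e n).2 = w)
    · rw [g_succ_of n w H]
      obtain ⟨hh, hw⟩ := H
      have hru := (hr n).1 hh
      unfold rule at hru
      rcases hw with hw | hw
      · subst hw
        have hne : (e n).2 ≠ (e n).1 := (hlt n).ne'
        rw [b_succ_ne n _ hne] at hb
        omega
      · subst hw
        have := b_succ_eq hinj hlt n
        omega
    · rw [g_succ_not n w H]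
      apply ih
      by_cases hw : (e n).2 = w
      · subst hw
        have := b_succ_eq hinj hlt n
        omega
      · rwa [b_succ_ne n w hw] at hb

lemma barrier_succ (hinj : Function.Injective e) (hlt : ∀ n, (e n).1 < (e n).2)
    (hr : ∀ n, h n = true ↔ rule k e h n) (n w : ℕ) (H0 : g e h n w + b e n w ≤ k) :
    g e h (n + 1) w + b e (n + 1) w ≤ k := by
  by_cases H : h n = true ∧ ((e n).1 = w ∨ (e n).2 = w)
  · rw [g_succ_of n w H]
    obtain ⟨hh, hw⟩ := H
    have hru := (hr n).1 hh
    unfold rule at hru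
    rcases hw with hw | hw
    · subst hw
      have hne : (e n).2 ≠ (e n).1 := (hlt n).ne'
      rw [b_succ_ne n _ hne]
      omega
    · subst hw
      have := b_succ_eq hinj hlt n
      omega
  · rw [g_succ_not n w H]
    by_cases hw : (e n).2 = w
    · subst hw
      have := b_succ_eq hinj hlt n
      omega
    · rw [b_succ_ne n w hw]
      omega

lemma barrier (hinj : Function.Injective e) (hlt : ∀ n, (e n).1 < (e n).2)
    (hr : ∀ n, h n = true ↔ rule k e h n) {n m : ℕ} (w : ℕ) (hnm : n ≤ m)
    (H0 : g e h n w + b e n w ≤ k) : g e h m w + b e m w ≤ k := by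
  induction m, hnm using Nat.le_induction with
  | base => exact H0
  | succ m _ ih => exact barrier_succ hinj hlt hr m w ih

/-- At most `k` green pairs `{u, v}` with `u < v` for every `u`. -/
lemma lower_le (hr : ∀ n, h n = true ↔ rule k e h n) (u N : ℕ) :
    ((range N).filter (fun i => h i = true ∧ (e i).1 = u)).card ≤ k := by
  induction N with
  | zero => simp
  | succ N ih =>
    rw [Finset.range_add_one, Finset.filter_insert]
    split_ifs with H
    · have h1 : ((range N).filter (fun i => h i = true ∧ (e i).1 = u)).card ≤ g e h N u := by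
        unfold g
        apply Finset.card_le_card
        intro i hi
        simp only [Finset.mem_filter] at hi ⊢
        exact ⟨hi.1, hi.2.1, Or.inl hi.2.2⟩
      have h2 := (hr N).1 H.1
      unfold rule at h2
      rw [H.2] at h2
      have h3 := Finset.card_insert_le N ((range N).filter (fun i => h i = true ∧ (e i).1 = u))
      omega
    · exact ih

/-- The situation at a red answer to a query `{x, v}`, `x < v`, when `x` is in danger. -/
lemma key (hk : 1 ≤ k) (hinj : Function.Injective e) (hlt : ∀ n, (e n).1 < (e n).2)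
    (hr : ∀ n, h n = true ↔ rule k e h n) {j : ℕ}
    (h1 : g e h j (e j).1 + b e j (e j).1 < k) (h2 : h j = false) :
    g e h j (e j).2 + 1 = k ∧ 2 ≤ b e j (e j).2 := by
  have h3 : ¬ rule k e h j := by
    rw [← hr, h2]; simp
  unfold rule at h3
  have h4 := one_le_b hinj hlt j
  have h5 := inv1 hk hinj hlt hr j (e j).2 h4
  constructor
  · by_contra hc
    exact h3 ⟨h1, Or.inl (by omega)⟩
  · by_contra hc
    exact h3 ⟨h1, Or.inr (by omega)⟩

/-- No vertex `x` can satisfy the three conditions below: from some turn on `x` is in danger, all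
queries at `x` are answered red, and almost all pairs at `x` are queried. -/
theorem core (hk : 3 ≤ k) (hinj : Function.Injective e) (hlt : ∀ n, (e n).1 < (e n).2)
    (hr : ∀ n, h n = true ↔ rule k e h n) (x t0 : ℕ) (F : Finset ℕ)
    (c1 : ∀ n, t0 ≤ n → g e h n x + b e n x < k)
    (c2 : ∀ n, t0 ≤ n → (e n).1 = x → h n = false)
    (c3 : ∀ u, u ∉ F → ∃ j, t0 ≤ j ∧ e j = (x, u)) : False := by
  classical
  have hk1 : 1 ≤ k := by omega
  -- facts at a query `j` at `x`
  have K : ∀ j, t0 ≤ j → (e j).1 = x → g e h j (e j).2 + 1 = k ∧ 2 ≤ b e j (e j).2 := by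
    intro j hj hx
    exact key hk1 hinj hlt hr (by rw [hx]; exact c1 j hj) (c2 j hj hx)
  -- no lower green at `(e j).2` before `j`
  have K2 : ∀ j, t0 ≤ j → (e j).1 = x → ∀ i, h i = true → (e i).1 = (e j).2 → j < i := by
    intro j hj hx i hi hij
    by_contra hc
    push Not at hc
    have h1 := (hr i).1 hi
    unfold rule at h1
    rw [hij] at h1
    have h2 := barrier hinj hlt hr (e j).2 hc h1.1.le
    have h3 := K j hj hx
    omega
  -- the choice of `T`
  choose! T hT using c3
  -- the finite sets
  let J : ℕ → Finset ℕ := fun N => (range N).filter (fun j => t0 ≤ j ∧ (e j).1 = x)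
  let A : ℕ → Finset ℕ := fun j => (range j).filter (fun i => h i = true ∧ (e i).2 = (e j).2)
  have hJ : ∀ N j, j ∈ J N ↔ j < N ∧ t0 ≤ j ∧ (e j).1 = x := by
    intro N j; simp [J]
  have hA : ∀ j i, i ∈ A j ↔ i < j ∧ h i = true ∧ (e i).2 = (e j).2 := by
    intro N j; simp [A]
  have cardA : ∀ N, ∀ j ∈ J N, (A j).card = k - 1 := by
    intro N j hj
    obtain ⟨_, hj1, hj2⟩ := (hJ N j).1 hj
    have h1 := (K j hj1 hj2).1
    have h2 : A j = (range j).filter
        (fun i => h i = true ∧ ((e i).1 = (e j).2 ∨ (e i).2 = (e j).2)) := by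
      ext i
      rw [hA]
      simp only [Finset.mem_filter, Finset.mem_range]
      constructor
      · rintro ⟨ha, hb, hc⟩
        exact ⟨ha, hb, Or.inr hc⟩
      · rintro ⟨ha, hb, hc | hc⟩
        · exfalso
          have := K2 j hj1 hj2 i hb hc
          omega
        · exact ⟨ha, hb, hc⟩
    rw [h2]
    unfold g at h1
    omega
  -- the double counting inequality
  have main : ∀ N, (k - 1) * (J N).card ≤ k * F.card + (J N).card := by
    intro N
    have e1 : ((J N).biUnion A).card = (k - 1) * (J N).card := by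
      rw [Finset.card_biUnion]
      · rw [Finset.sum_congr rfl (cardA N), Finset.sum_const, smul_eq_mul, mul_comm]
      · intro j hj j' hj' hne
        change Disjoint (A j) (A j')
        rw [Finset.disjoint_left]
        intro i hi hi'
        apply hne
        apply hinj
        obtain ⟨_, _, a3⟩ := (hA j i).1 hi
        obtain ⟨_, _, b3⟩ := (hA j' i).1 hi'
        obtain ⟨_, _, c3⟩ := (hJ N j).1 hj
        obtain ⟨_, _, d3⟩ := (hJ N j').1 hj'
        exact Prod.ext (by rw [c3, d3]) (by rw [← a3, ← b3])
    have e2 : (J N).biUnion A ⊆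
        (F.biUnion (fun u => (range N).filter (fun i => h i = true ∧ (e i).1 = u))) ∪
        (((J N).biUnion A).filter (fun i => (e i).1 ∉ F)) := by
      intro i hi
      rw [Finset.mem_union]
      by_cases hiF : (e i).1 ∈ F
      · left
        rw [Finset.mem_biUnion]
        refine ⟨(e i).1, hiF, ?_⟩
        rw [Finset.mem_biUnion] at hi
        obtain ⟨j, hj, hij⟩ := hi
        obtain ⟨a1, a2, a3⟩ := (hA j i).1 hij
        obtain ⟨b1, _, _⟩ := (hJ N j).1 hj
        simp only [Finset.mem_filter, Finset.mem_range, and_true]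
        exact ⟨by omega, a2⟩
      · right
        exact Finset.mem_filter.2 ⟨hi, hiF⟩
    have e3 : (F.biUnion (fun u => (range N).filter (fun i => h i = true ∧ (e i).1 = u))).card
        ≤ k * F.card := by
      refine le_trans Finset.card_biUnion_le ?_
      refine le_trans (Finset.sum_le_card_nsmul F _ k (fun u _ => lower_le hr u N)) ?_
      rw [smul_eq_mul, mul_comm]
    have e4 : (((J N).biUnion A).filter (fun i => (e i).1 ∉ F)).card ≤ (J N).card := by
      apply Finset.card_le_card_of_injOn (fun i => T (e i).1)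
      · intro i hi
        rw [Finset.mem_coe, Finset.mem_filter, Finset.mem_biUnion] at hi
        obtain ⟨⟨j, hj, hij⟩, hiF⟩ := hi
        obtain ⟨a1, a2, a3⟩ := (hA j i).1 hij
        obtain ⟨b1, _, _⟩ := (hJ N j).1 hj
        obtain ⟨t1, t2⟩ := hT _ hiF
        rw [Finset.mem_coe, hJ]
        have h3 := K2 (T (e i).1) t1 (by rw [t2]) i a2 (by rw [t2])
        exact ⟨show T (e i).1 < N by omega, t1, by rw [t2]⟩
      · intro i hi i' hi' hii
        rw [Finset.mem_coe, Finset.mem_filter, Finset.mem_biUnion] at hi hi'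
        obtain ⟨⟨j, hj, hij⟩, hiF⟩ := hi
        obtain ⟨⟨j', hj', hij'⟩, hiF'⟩ := hi'
        obtain ⟨a1, a2, a3⟩ := (hA j i).1 hij
        obtain ⟨a1', a2', a3'⟩ := (hA j' i').1 hij'
        obtain ⟨t1, t2⟩ := hT _ hiF
        obtain ⟨t1', t2'⟩ := hT _ hiF'
        have hii2 : T (e i).1 = T (e i').1 := hii
        have hu : (e i).1 = (e i').1 := by
          have : e (T (e i).1) = e (T (e i').1) := by rw [hii2]
          rw [t2, t2'] at this
          exact (Prod.ext_iff.1 this).2
        have s1 := K2 (T (e i).1) t1 (by rw [t2]) i a2 (by rw [t2])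
        have s2 := K2 (T (e i').1) t1' (by rw [t2']) i' a2' (by rw [t2'])
        have s3 := (K (T (e i).1) t1 (by rw [t2])).1
        rw [t2] at s3
        simp only at s3
        -- two different lower greens at the same vertex after `T`
        have aux : ∀ p q : ℕ, T (e i).1 < p → p < q → h p = true → h q = true →
            (e p).1 = (e i).1 → (e q).1 = (e i).1 → False := by
          intro p q hTp hpq hp hq hp1 hq1
          have r1 := g_succ_of (e := e) (h := h) p (e i).1 ⟨hp, Or.inl hp1⟩
          have r2 := g_mono (e := e) (h := h) (e i).1 hTp.le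
          have r3 := g_mono (e := e) (h := h) (e i).1 (show p + 1 ≤ q by omega)
          have r4 := (hr q).1 hq
          unfold rule at r4
          rw [hq1] at r4
          omega
        rcases lt_trichotomy i i' with hlt' | heq | hgt
        · exact (aux i i' s1 hlt' a2 a2' rfl hu.symm).elim
        · exact heq
        · rw [← hii2] at s2
          exact (aux i' i s2 hgt a2' a2 hu.symm rfl).elim
    have e5 := Finset.card_le_card e2
    have e6 := Finset.card_union_le
      (F.biUnion (fun u => (range N).filter (fun i => h i = true ∧ (e i).1 = u)))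
      (((J N).biUnion A).filter (fun i => (e i).1 ∉ F))
    rw [e1] at e5
    omega
  -- `J N` is unbounded
  have unb : ∀ M : ℕ, ∃ N, M ≤ (J N).card := by
    intro M
    let U : Finset ℕ := range (M + F.card) \ F
    have hU : M ≤ U.card := by
      have := Finset.le_card_sdiff F (range (M + F.card))
      rw [Finset.card_range] at this
      change M ≤ (range (M + F.card) \ F).card
      omega
    refine ⟨U.sup T + 1, le_trans hU ?_⟩
    apply Finset.card_le_card_of_injOn T
    · intro u hu
      have huF : u ∉ F := (Finset.mem_sdiff.1 (Finset.mem_coe.1 hu)).2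
      obtain ⟨t1, t2⟩ := hT u huF
      rw [Finset.mem_coe, hJ]
      refine ⟨?_, t1, by rw [t2]⟩
      have : T u ≤ U.sup T := Finset.le_sup (f := T) (Finset.mem_coe.1 hu)
      omega
    · intro u hu u' hu' huu
      have huF : u ∉ F := (Finset.mem_sdiff.1 (Finset.mem_coe.1 hu)).2
      have huF' : u' ∉ F := (Finset.mem_sdiff.1 (Finset.mem_coe.1 hu')).2
      have h1 := (hT u huF).2
      have h2 := (hT u' huF').2
      rw [huu, h2] at h1
      exact (Prod.ext_iff.1 h1).2.symm
  obtain ⟨N, hN⟩ := unb (k * F.card + 1)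
  have h1 := main N
  have h2 : 2 * (J N).card ≤ (k - 1) * (J N).card := Nat.mul_le_mul_right _ (by omega)
  omega

end Core

/-! ## Existence of Hider's answers -/

/-- Recursive construction of a sequence from a rule that sees the past only. -/
def build (R : (n : ℕ) → (Fin n → Bool) → Bool) (n : ℕ) : Bool :=
  R n (fun i : Fin n => build R i)
termination_by n
decreasing_by exact i.2

lemma build_eq (R : (n : ℕ) → (Fin n → Bool) → Bool) (n : ℕ) :
    build R n = R n (fun i : Fin n => build R i) := by
  rw [build]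

/-- The sequence of pairs (as elements of `ℕ × ℕ`). -/
def ev (σ : SeekerStrategy) (h : ℕ → Bool) (n : ℕ) : ℕ × ℕ := (query σ h n).1

lemma query_congr (σ : SeekerStrategy) {h h' : ℕ → Bool} {n : ℕ}
    (hh : ∀ i < n, h i = h' i) : query σ h n = query σ h' n := by
  unfold query
  congr 1
  funext i
  exact hh i i.2

lemma rule_congr (σ : SeekerStrategy) (k : ℕ) {h h' : ℕ → Bool} {n : ℕ}
    (hh : ∀ i < n, h i = h' i) : rule k (ev σ h) h n ↔ rule k (ev σ h') h' n := by
  have he : ∀ i ≤ n, ev σ h i = ev σ h' i := by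
    intro i hi
    unfold ev
    rw [query_congr σ (fun j hj => hh j (by omega))]
  have hg : ∀ w, g (ev σ h) h n w = g (ev σ h') h' n w := by
    intro w
    unfold g
    congr 1
    apply Finset.filter_congr
    intro i hi
    have hi' : i < n := Finset.mem_range.1 hi
    rw [hh i hi', he i hi'.le]
  have hb : ∀ w, b (ev σ h) n w = b (ev σ h') n w := by
    intro w
    unfold b
    congr 1
    apply Finset.filter_congr
    intro x _
    constructor
    · intro H i hi
      rw [← he i hi.le]
      exact H i hi
    · intro H i hi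
      rw [he i hi.le]
      exact H i hi
  unfold rule
  rw [hg, hg, hb, hb, he n le_rfl]

theorem exists_answers (σ : SeekerStrategy) (k : ℕ) :
    ∃ h : ℕ → Bool, ∀ n, h n = true ↔ rule k (ev σ h) h n := by
  classical
  let ext : (n : ℕ) → (Fin n → Bool) → ℕ → Bool :=
    fun n f i => if hi : i < n then f ⟨i, hi⟩ else false
  let R : (n : ℕ) → (Fin n → Bool) → Bool :=
    fun n f => decide (rule k (ev σ (ext n f)) (ext n f) n)
  refine ⟨build R, fun n => ?_⟩
  rw [build_eq]
  have h1 : ∀ i < n, ext n (fun i : Fin n => build R i) i = build R i := by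
    intro i hi
    simp [ext, hi]
  rw [show R n (fun i : Fin n => build R i) =
    decide (rule k (ev σ (ext n (fun i : Fin n => build R i)))
      (ext n (fun i : Fin n => build R i)) n) from rfl, decide_eq_true_iff]
  exact rule_congr σ k h1

/-! ## The two halves -/

lemma green_adj {q : ℕ → Pair} {h : ℕ → Bool} {x y : ℕ} :
    (green q h).Adj x y ↔
      x ≠ y ∧ ((∃ n, h n = true ∧ (q n).1 = (x, y)) ∨ (∃ n, h n = true ∧ (q n).1 = (y, x))) := by
  unfold green
  rw [SimpleGraph.fromRel_adj]

lemma white_adj {q : ℕ → Pair} {x y : ℕ} :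
    (white q).Adj x y ↔
      x ≠ y ∧ ((x < y ∧ ∀ n, (q n).1 ≠ (x, y)) ∨ (y < x ∧ ∀ n, (q n).1 ≠ (y, x))) := by
  unfold white
  rw [SimpleGraph.fromRel_adj]

/-- If the green degree of `v` is at least `k` then it is so after finitely many turns. -/
lemma exists_g_ge {q : ℕ → Pair} {h : ℕ → Bool} {k v : ℕ}
    (hdeg : (k : ℕ∞) ≤ ((green q h).neighborSet v).encard) :
    ∃ N, k ≤ g (fun n => (q n).1) h N v := by
  classical
  obtain ⟨Y, hY, hYc⟩ := Set.exists_subset_encard_eq hdeg
  have hfin : Y.Finite := Set.finite_of_encard_eq_coe hYc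
  have hex : ∀ y ∈ Y, ∃ n, h n = true ∧ ((q n).1 = (v, y) ∨ (q n).1 = (y, v)) := by
    intro y hy
    have := hY hy
    rw [SimpleGraph.mem_neighborSet, green_adj] at this
    rcases this.2 with ⟨n, h1, h2⟩ | ⟨n, h1, h2⟩
    · exact ⟨n, h1, Or.inl h2⟩
    · exact ⟨n, h1, Or.inr h2⟩
  choose! f hf1 hf2 using hex
  have hne : ∀ y ∈ Y, v ≠ y := by
    intro y hy
    have := hY hy
    rw [SimpleGraph.mem_neighborSet] at this
    exact this.ne
  let Yf := hfin.toFinset
  have hYf : Yf.card = k := by
    have := hfin.encard_eq_coe_toFinset_card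
    rw [hYc] at this
    exact_mod_cast this.symm
  refine ⟨Yf.sup f + 1, ?_⟩
  rw [← hYf]
  unfold g
  apply Finset.card_le_card_of_injOn f
  · intro y hy
    have hyY : y ∈ Y := by
      have := Finset.mem_coe.1 hy
      exact (Set.Finite.mem_toFinset hfin).1 this
    simp only [Finset.coe_filter, Finset.mem_range, Set.mem_ofPred_eq]
    refine ⟨?_, hf1 y hyY, ?_⟩
    · have : f y ≤ Yf.sup f := Finset.le_sup (f := f) (Finset.mem_coe.1 hy)
      omega
    · rcases hf2 y hyY with h1 | h1
      · left; rw [h1]
      · right; rw [h1]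
  · intro y hy y' hy' hyy
    have hyY : y ∈ Y := (Set.Finite.mem_toFinset hfin).1 (Finset.mem_coe.1 hy)
    have hyY' : y' ∈ Y := (Set.Finite.mem_toFinset hfin).1 (Finset.mem_coe.1 hy')
    have n1 := hne y hyY
    have n2 := hne y' hyY'
    rcases hf2 y hyY with h1 | h1 <;> rcases hf2 y' hyY' with h2 | h2
    · rw [hyy, h2] at h1
      exact (Prod.ext_iff.1 h1).2.symm
    · rw [hyy, h2] at h1
      exact absurd (Prod.ext_iff.1 h1).2 n1
    · rw [hyy, h2] at h1
      exact absurd (Prod.ext_iff.1 h1).1 n1
    · rw [hyy, h2] at h1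
      exact (Prod.ext_iff.1 h1).1.symm

/-- If the green degree plus the white degree of `x` is less than `k`, then the hypotheses of
`core` hold. -/
lemma small_degree {q : ℕ → Pair} {h : ℕ → Bool} {k x : ℕ} (hinj : Function.Injective q)
    (hdeg : ((green q h ⊔ white q).neighborSet x).encard < (k : ℕ∞)) :
    ∃ (t0 : ℕ) (F : Finset ℕ),
      (∀ n, t0 ≤ n → g (fun n => (q n).1) h n x + b (fun n => (q n).1) n x < k) ∧
      (∀ n, t0 ≤ n → (q n).1.1 = x → h n = false) ∧
      (∀ u, u ∉ F → ∃ j, t0 ≤ j ∧ (q j).1 = (x, u)) := by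
  classical
  have hinj' : Function.Injective (fun n => (q n).1) :=
    fun a c hac => hinj (Subtype.ext hac)
  have hlt : ∀ n, (q n).1.1 < (q n).1.2 := fun n => (q n).2
  have hfin : ((green q h ⊔ white q).neighborSet x).Finite :=
    Set.finite_of_encard_le_coe hdeg.le
  let Nb : Finset ℕ := hfin.toFinset
  have hNb : ∀ y, y ∈ Nb ↔ (green q h).Adj x y ∨ (white q).Adj x y := by
    intro y
    rw [Set.Finite.mem_toFinset, SimpleGraph.mem_neighborSet, SimpleGraph.sup_adj]
  have hcard : Nb.card < k := by
    rw [hfin.encard_eq_coe_toFinset_card] at hdeg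
    exact_mod_cast hdeg
  -- the other endpoint
  let oth : ℕ → ℕ := fun n => if (q n).1.1 = x then (q n).1.2 else (q n).1.1
  have oth_inj : ∀ n m, ((q n).1.1 = x ∨ (q n).1.2 = x) → ((q m).1.1 = x ∨ (q m).1.2 = x) →
      oth n = oth m → n = m := by
    intro n m hn hm hnm
    have l1 := hlt n
    have l2 := hlt m
    apply hinj'
    simp only [oth] at hnm
    apply Prod.ext
    · show (q n).1.1 = (q m).1.1
      split_ifs at hnm <;> omega
    · show (q n).1.2 = (q m).1.2
      split_ifs at hnm <;> omega
  have oth_green : ∀ n, h n = true → ((q n).1.1 = x ∨ (q n).1.2 = x) →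
      (green q h).Adj x (oth n) := by
    intro n hn hx
    have l1 := hlt n
    rw [green_adj]
    simp only [oth]
    split_ifs with hc
    · refine ⟨by omega, Or.inl ⟨n, hn, ?_⟩⟩
      exact Prod.ext hc rfl
    · have hx2 : (q n).1.2 = x := by omega
      refine ⟨by omega, Or.inr ⟨n, hn, ?_⟩⟩
      exact Prod.ext rfl hx2
  -- all green queries at `x` are before `t1`
  obtain ⟨t1, ht1⟩ : ∃ t1, ∀ n, t1 ≤ n → ¬ (h n = true ∧ ((q n).1.1 = x ∨ (q n).1.2 = x)) := by
    have hf : {n | h n = true ∧ ((q n).1.1 = x ∨ (q n).1.2 = x)}.Finite := by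
      apply Set.Finite.of_finite_image (f := oth)
      · apply Nb.finite_toSet.subset
        rintro _ ⟨n, ⟨hn1, hn2⟩, rfl⟩
        exact Finset.mem_coe.2 ((hNb _).2 (Or.inl (oth_green n hn1 hn2)))
      · rintro n ⟨_, hn⟩ m ⟨_, hm⟩ hnm
        exact oth_inj n m hn hm hnm
    obtain ⟨B, hB⟩ := hf.bddAbove
    refine ⟨B + 1, fun n hn hc => ?_⟩
    have : n ≤ B := hB hc
    omega
  -- the queried pairs `{y, x}` with `y < x` are all queried before `t2`
  obtain ⟨t2, ht2⟩ : ∃ t2, ∀ n, t2 ≤ n → ∀ y, y < x → (∀ i < n, (q i).1 ≠ (y, x)) →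
      ∀ i, (q i).1 ≠ (y, x) := by
    have hex : ∀ y, ∃ t, ((∃ i, (q i).1 = (y, x)) → (q t).1 = (y, x)) := by
      intro y
      by_cases hy : ∃ i, (q i).1 = (y, x)
      · obtain ⟨i, hi⟩ := hy
        exact ⟨i, fun _ => hi⟩
      · exact ⟨0, fun h => absurd h hy⟩
    choose f hf using hex
    refine ⟨(range x).sup f + 1, fun n hn y hy H i hi => ?_⟩
    have h1 : (q (f y)).1 = (y, x) := hf y ⟨i, hi⟩
    have h2 : f y ≤ (range x).sup f := Finset.le_sup (f := f) (Finset.mem_range.2 hy)
    exact H (f y) (by omega) h1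
  refine ⟨max t1 t2, range (x + 1) ∪ Nb ∪ (range (max t1 t2)).image (fun n => (q n).1.2),
    ?_, ?_, ?_⟩
  · intro n hn
    refine lt_of_le_of_lt ?_ hcard
    unfold g b
    let Gn : Finset ℕ :=
      ((range n).filter (fun i => h i = true ∧ ((q i).1.1 = x ∨ (q i).1.2 = x))).image oth
    let Bn : Finset ℕ := (range x).filter (fun y => ∀ i < n, (q i).1 ≠ (y, x))
    have hGn : Gn.card =
        ((range n).filter (fun i => h i = true ∧ ((q i).1.1 = x ∨ (q i).1.2 = x))).card := by
      apply Finset.card_image_of_injOn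
      intro i hi j hj hij
      simp only [Finset.coe_filter, Set.mem_ofPred_eq] at hi hj
      exact oth_inj i j hi.2.2 hj.2.2 hij
    change ((range n).filter (fun i => h i = true ∧ ((q i).1.1 = x ∨ (q i).1.2 = x))).card +
      Bn.card ≤ Nb.card
    rw [← hGn, ← Finset.card_union_of_disjoint]
    · apply Finset.card_le_card
      intro y hy
      rw [hNb]
      rcases Finset.mem_union.1 hy with hy | hy
      · obtain ⟨i, hi, rfl⟩ := Finset.mem_image.1 hy
        obtain ⟨_, h1, h2⟩ := Finset.mem_filter.1 hi
        exact Or.inl (oth_green i h1 h2)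
      · obtain ⟨h1, h2⟩ := Finset.mem_filter.1 hy
        rw [Finset.mem_range] at h1
        right
        rw [white_adj]
        exact ⟨by omega, Or.inr ⟨h1, ht2 n (le_trans (le_max_right _ _) hn) y h1 h2⟩⟩
    · rw [Finset.disjoint_left]
      intro y hy hy2
      obtain ⟨i, hi, rfl⟩ := Finset.mem_image.1 hy
      obtain ⟨hin, _, h2⟩ := Finset.mem_filter.1 hi
      obtain ⟨h3, h4⟩ := Finset.mem_filter.1 hy2
      rw [Finset.mem_range] at hin h3
      have l1 := hlt i
      have h5 := h4 i hin
      apply h5
      simp only [oth] at h3 ⊢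
      split_ifs at h3 ⊢ with hc
      · omega
      · have hx2 : (q i).1.2 = x := by omega
        exact Prod.ext rfl hx2
  · intro n hn hx
    have := ht1 n (le_trans (le_max_left _ _) hn)
    by_contra hc
    exact this ⟨by simpa using hc, Or.inl hx⟩
  · intro u hu
    rw [Finset.mem_union, Finset.mem_union] at hu
    push Not at hu
    obtain ⟨⟨hu1, hu2⟩, hu3⟩ := hu
    rw [Finset.mem_range] at hu1
    rw [hNb] at hu2
    push Not at hu2
    have hxu : x < u := by omega
    have hex : ∃ j, (q j).1 = (x, u) := by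
      by_contra hc
      push Not at hc
      exact hu2.2 (white_adj.2 ⟨by omega, Or.inl ⟨hxu, hc⟩⟩)
    obtain ⟨j, hj⟩ := hex
    refine ⟨j, ?_, hj⟩
    by_contra hc
    push Not at hc
    apply hu3
    rw [Finset.mem_image]
    exact ⟨j, Finset.mem_range.2 hc, by rw [hj]⟩

/-- `D k` is infinity-elusive for every `k ≥ 3`. -/
theorem elusive {k : ℕ} (hk : 3 ≤ k) : InfElusive (D k) := by
  rintro ⟨σ, hσ⟩
  obtain ⟨h, hr⟩ := exists_answers σ k
  obtain ⟨hinj, hw, hS⟩ := hσ h
  have hinj' : Function.Injective (ev σ h) := fun a c hac => hinj (Subtype.ext hac)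
  have hlt : ∀ n, (ev σ h n).1 < (ev σ h n).2 := fun n => (query σ h n).2
  rcases hS with hS | hS
  · -- the green graph is a completion but not in `D k`
    have h1 : green (query σ h) h ∈ D k := hS ⟨le_rfl, le_sup_left⟩
    -- a white pair
    obtain ⟨u, v, huv⟩ : ∃ u v, (white (query σ h)).Adj u v := by
      by_contra hc
      push Not at hc
      apply hw
      ext a c
      simp [hc a c]
    obtain ⟨u, v, huv, hq⟩ : ∃ u v, u < v ∧ ∀ n, (query σ h n).1 ≠ (u, v) := by
      rcases (white_adj.1 huv).2 with h2 | h2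
      · exact ⟨u, v, h2⟩
      · exact ⟨v, u, h2⟩
    obtain ⟨N, hN⟩ := exists_g_ge (h1 v)
    have h2 : 1 ≤ b (ev σ h) N v := by
      unfold b
      rw [Nat.succ_le_iff, Finset.card_pos]
      exact ⟨u, Finset.mem_filter.2 ⟨Finset.mem_range.2 huv, fun i _ => hq i⟩⟩
    have h3 := inv1 (by omega) hinj' hlt hr N v h2
    have h4 : k ≤ g (ev σ h) h N v := hN
    omega
  · -- green and white together are a completion in `D k`
    have h1 : green (query σ h) h ⊔ white (query σ h) ∉ D k := by
      intro h2
      have : green (query σ h) h ⊔ white (query σ h) ∈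
          completions (query σ h) h ∩ D k := ⟨⟨le_sup_left, le_rfl⟩, h2⟩
      rw [hS] at this
      exact this
    unfold D at h1
    rw [Set.mem_ofPred_eq] at h1
    push Not at h1
    obtain ⟨x, hx⟩ := h1
    obtain ⟨t0, F, c1, c2, c3⟩ := small_degree hinj hx
    exact core hk hinj' hlt hr x t0 F c1 c2 c3

/-- **Result.**  For every `k ≥ 3` the property that all degrees are at least `k` is
infinity-elusive; in particular there is an integer `k ≥ 2` with this property. -/
theorem result :
    (∀ k : ℕ, 3 ≤ k → InfElusive (D k)) ∧ ∃ k : ℕ, 2 ≤ k ∧ InfElusive (D k) :=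
  ⟨fun _ hk => elusive hk, 3, by norm_num, elusive le_rfl⟩

end Pool.Agent.Results.MP_3b52ff_co.MinDegreeElusive
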